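import Pool.Agent.MP_64e319_co.Sphere

/-- Any two bases of a finite coloop-free matroid lie in a subcomplex of the independence complex
whose geometric realisation (barycentric coordinates) is homeomorphic to the sphere of
dimension rank minus one. -/
theorem Pool.Agent.Results.MP_64e319_co.TwoBasesSphere.result {α : Type*} (M : Matroid α)
    [M.Finite] (hM : ∀ e, ¬ M.IsColoop e) {B B' : Set α} (hB : M.IsBase B) (hB' : M.IsBase B') :
    ∃ K : Set (Set α), IsLowerSet K ∧ (∀ s ∈ K, M.Indep s) ∧ B ∈ K ∧ B' ∈ K ∧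
      Nonempty ({a : α → ℝ | 0 ≤ a ∧ Function.support a ∈ K ∧ ∑ᶠ e, a e = 1} ≃ₜ
        Metric.sphere (0 : EuclideanSpace ℝ (Fin B.ncard)) 1) :=
  Pool.Agent.MP_64e319_co.main M hM hB hB'
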